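import Pool.Agent.W670.LL.Stm

set_option autoImplicit false

/-! Part S3 of project LL: the endomorphism `√-3` exists (gluing). -/

namespace Pool.Agent.W366.LL

open WeierstrassCurve Pool.Agent.W670.LL

/-- gluing: a map that is additive outside small sets is additive -/
lemma glue {G H : Type*} [AddCommGroup G] [AddCommGroup H] [Infinite G] (s : G → H)
    (hs : ∀ P, ∃ B : Set G, B.Finite ∧ ∀ R, R ∉ B → s (P + R) = s P + s R)
    (P Q : G) : s (P + Q) = s P + s Q := by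
  choose B hB hs using hs
  have hfin : (B (P + Q) ∪ B Q ∪ (fun R => Q + R) ⁻¹' B P).Finite := by
    refine ((hB _).union (hB _)).union ((hB P).preimage ?_)
    exact (add_right_injective Q).injOn
  obtain ⟨R, hR⟩ := hfin.infinite_compl.nonempty
  simp only [Set.mem_compl_iff, Set.mem_union, Set.mem_preimage, not_or] at hR
  obtain ⟨⟨h1, h2⟩, h3⟩ := hR
  have e1 := hs (P + Q) R h1
  have e2 := hs P (Q + R) h3
  have e3 := hs Q R h2
  rw [add_assoc, e2, e3, ← add_assoc] at e1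
  exact (add_right_cancel e1).symm

section

variable {K : Type} [Field K]

lemma four8 (h2 : (2 : K) ≠ 0) (h3 : (3 : K) ≠ 0) : (6 : K) ^ 2 - 4 * (-3) ≠ 0 := by
  have : (6 : K) ^ 2 - 4 * (-3) = 2 ^ 4 * 3 := by norm_num
  rw [this]
  exact mul_ne_zero (pow_ne_zero _ h2) h3

/-- the points with given abscissa -/
lemma fin_one (x : K) : {R : Pt (6 : K) (-3) | ∃ y h, R = Affine.Point.some x y h}.Finite := by
  classical
  by_cases he : ∃ y1 h1, ({R : Pt (6 : K) (-3) | ∃ y h, R = Affine.Point.some x y h}) ⊆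
      {Affine.Point.some x y1 h1, -(Affine.Point.some x y1 h1)}
  · obtain ⟨y1, h1, hs⟩ := he
    exact (Set.toFinite _).subset hs
  · have : {R : Pt (6 : K) (-3) | ∃ y h, R = Affine.Point.some x y h} = ∅ := by
      by_contra hne
      obtain ⟨R1, y1, h1, rfl⟩ := Set.nonempty_iff_ne_empty.mpr hne
      apply he
      refine ⟨y1, h1, ?_⟩
      rintro R ⟨y, h, rfl⟩
      have e1 := eqn h
      have e2 := eqn h1
      have e3 : (y - y1) * (y + y1) = 0 := by linear_combination e1 - e2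
      rcases mul_eq_zero.1 e3 with h4 | h4
      · left
        have : y = y1 := sub_eq_zero.1 h4
        subst this
        rfl
      · right
        have h5 : y = -y1 := eq_neg_of_add_eq_zero_left h4
        subst h5
        obtain ⟨h', e⟩ := neg_mk h1
        rw [Set.mem_singleton_iff, e]
    rw [this]
    exact Set.finite_empty

/-- the points with abscissa in `S`, and zero -/
def PS (S : Set K) : Set (Pt (6 : K) (-3)) :=
  {R | R = 0 ∨ ∃ x y h, R = Affine.Point.some x y h ∧ x ∈ S}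

lemma fin_PS (S : Set K) (hS : S.Finite) : (PS S).Finite := by
  have : PS S ⊆ {0} ∪ ⋃ x ∈ S, {R : Pt (6 : K) (-3) | ∃ y h, R = Affine.Point.some x y h} := by
    rintro R (h | ⟨x, y, h, h1, h2⟩)
    · left; exact h
    · right
      simp only [Set.mem_iUnion]
      exact ⟨x, h2, y, h, h1⟩
  exact ((Set.finite_singleton _).union (hS.biUnion fun x _ => fin_one x)).subset this

lemma fin_F (h2 : (2 : K) ≠ 0) (h3 : (3 : K) ≠ 0) (c : K) : {x : K | x ≠ 1 ∧ sx x = c}.Finite := by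
  set p : Polynomial K := Polynomial.X * (Polynomial.X + Polynomial.C 3) ^ 2 +
    Polynomial.C (3 * c) * (Polynomial.X - Polynomial.C 1) ^ 2 with hp
  have hp0 : p ≠ 0 := by
    intro h0
    have h1 : p.eval 1 = 0 := by rw [h0]; simp
    rw [hp] at h1
    simp only [Polynomial.eval_add, Polynomial.eval_mul, Polynomial.eval_X, Polynomial.eval_pow,
      Polynomial.eval_C, Polynomial.eval_sub] at h1
    have h4 : (2 : K) ^ 4 = 0 := by linear_combination h1
    exact pow_ne_zero 4 h2 h4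
  refine (Polynomial.finite_setOfPred_isRoot hp0).subset ?_
  rintro x ⟨hx, hc⟩
  have hx1 : x - 1 ≠ 0 := sub_ne_zero.2 hx
  unfold sx at hc
  rw [div_eq_iff (mul_ne_zero h3 (pow_ne_zero _ hx1))] at hc
  change p.eval x = 0
  rw [hp]
  simp only [Polynomial.eval_add, Polynomial.eval_mul, Polynomial.eval_X, Polynomial.eval_pow,
    Polynomial.eval_C, Polynomial.eval_sub]
  linear_combination -hc

lemma sxy_eqn (h3 : (3 : K) ≠ 0) {ρ : K} (hρ : ρ ^ 2 = -3) {x y : K} (hx : x ≠ 1)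
    (h : y ^ 2 = x ^ 3 + 6 * x ^ 2 + -3 * x) :
    (sy ρ x y) ^ 2 = (sx x) ^ 3 + 6 * (sx x) ^ 2 + -3 * sx x := by
  have hx1 : x - 1 ≠ 0 := sub_ne_zero.2 hx
  have hρ0 : ρ ≠ 0 := by
    rintro rfl
    apply h3
    linear_combination hρ
  have e1 : (sy ρ x y) ^ 2 = (y ^ 2 * (x + 3) ^ 2 * (x ^ 2 - 6 * x - 3) ^ 2) /
      (9 * (-3) * (x - 1) ^ 6) := by
    unfold sy
    rw [div_pow]
    congr 1
    · ring
    · rw [← hρ]; ring
  rw [e1, h]
  unfold sx
  have h9 : (9 : K) * (-3) * (x - 1) ^ 6 ≠ 0 := by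
    have : (9 : K) = 3 * 3 := by norm_num
    rw [this]
    exact mul_ne_zero (mul_ne_zero (mul_ne_zero h3 h3) (neg_ne_zero.2 h3)) (pow_ne_zero _ hx1)
  rw [div_eq_iff h9]
  field_simp
  ring

/-- the map -/
noncomputable def sf (h2 : (2 : K) ≠ 0) (h3 : (3 : K) ≠ 0) {ρ : K} (hρ : ρ ^ 2 = -3)
    [DecidableEq K] : Pt (6 : K) (-3) → Pt (6 : K) (-3)
  | .zero => 0
  | .some x y h => if hx : x = 1 then 0 else
      Affine.Point.some (sx x) (sy ρ x y)
        (nons h2 (neg_ne_zero.2 h3) (four8 h2 h3) (sxy_eqn h3 hρ hx (eqn h)))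

variable [DecidableEq K]

lemma sf_zero (h2 : (2 : K) ≠ 0) (h3 : (3 : K) ≠ 0) {ρ : K} (hρ : ρ ^ 2 = -3) :
    sf h2 h3 hρ 0 = 0 := rfl

lemma sf_one (h2 : (2 : K) ≠ 0) (h3 : (3 : K) ≠ 0) {ρ : K} (hρ : ρ ^ 2 = -3) (y : K)
    (h : (Cv (6 : K) (-3)).Nonsingular 1 y) :
    sf h2 h3 hρ (Affine.Point.some 1 y h) = 0 := by
  simp [sf]

lemma sf_some (h2 : (2 : K) ≠ 0) (h3 : (3 : K) ≠ 0) {ρ : K} (hρ : ρ ^ 2 = -3) (x y : K)
    (h : (Cv (6 : K) (-3)).Nonsingular x y) (hx : x ≠ 1) :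
    ∃ h', sf h2 h3 hρ (Affine.Point.some x y h) = Affine.Point.some (sx x) (sy ρ x y) h' := by
  refine ⟨nons h2 (neg_ne_zero.2 h3) (four8 h2 h3) (sxy_eqn h3 hρ hx (eqn h)), ?_⟩
  simp [sf, hx]

omit [DecidableEq K] in
lemma some_congr {x y x' y' : K} (h : (Cv (6 : K) (-3)).Nonsingular x y)
    (h' : (Cv (6 : K) (-3)).Nonsingular x' y') (hx : x = x') (hy : y = y') :
    (Affine.Point.some x y h : Pt (6 : K) (-3)) = Affine.Point.some x' y' h' := by
  subst hx hy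
  rfl

lemma local_add (h1' : S_S1) (h2' : S_S2) (h2 : (2 : K) ≠ 0) (h3 : (3 : K) ≠ 0) {ρ : K}
    (hρ : ρ ^ 2 = -3) (P : Pt (6 : K) (-3)) :
    ∃ B : Set (Pt (6 : K) (-3)), B.Finite ∧ ∀ R, R ∉ B →
      sf h2 h3 hρ (P + R) = sf h2 h3 hρ P + sf h2 h3 hρ R := by
  rcases P with _ | ⟨x₁, y₁, H₁⟩
  · refine ⟨∅, Set.finite_empty, fun R _ => ?_⟩
    change sf h2 h3 hρ (0 + R) = sf h2 h3 hρ 0 + sf h2 h3 hρ R
    rw [sf_zero, zero_add, zero_add]
  · set P : Pt (6 : K) (-3) := Affine.Point.some x₁ y₁ H₁ with hP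
    have hfin : ((PS ({1, x₁} ∪ {x : K | x ≠ 1 ∧ sx x = sx x₁})) ∪
        (fun R => P + R) ⁻¹' PS {1}).Finite := by
      refine (fin_PS _ ((Set.toFinite _).union (fin_F h2 h3 _))).union ?_
      exact (fin_PS _ (Set.finite_singleton _)).preimage (add_right_injective P).injOn
    refine ⟨_, hfin, ?_⟩
    intro R hR
    rw [Set.mem_union, not_or] at hR
    obtain ⟨hR1, hR2⟩ := hR
    rcases R with _ | ⟨x₂, y₂, H₂⟩
    · exact absurd (Or.inl rfl) hR1
    · have hx2 : x₂ ≠ 1 := by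
        intro h
        apply hR1
        right
        exact ⟨x₂, y₂, H₂, rfl, Or.inl (Or.inl h)⟩
      have hx12 : x₁ ≠ x₂ := by
        intro h
        apply hR1
        right
        exact ⟨x₂, y₂, H₂, rfl, Or.inl (Or.inr h.symm)⟩
      have hsx : sx x₁ ≠ sx x₂ := by
        intro h
        apply hR1
        right
        exact ⟨x₂, y₂, H₂, rfl, Or.inr ⟨hx2, h.symm⟩⟩
      have hd : x₁ - x₂ ≠ 0 := sub_ne_zero.2 hx12
      obtain ⟨H3, e3⟩ := add_mk H₁ H₂ hx12 ((y₁ - y₂) / (x₁ - x₂)) _ _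
        (div_mul_cancel₀ _ hd) rfl rfl
      set l : K := (y₁ - y₂) / (x₁ - x₂) with hl
      set x₃ : K := l ^ 2 - 6 - x₁ - x₂ with hx3
      set y₃ : K := -(y₁ + l * (x₃ - x₁)) with hy3
      have hx31 : x₃ ≠ 1 := by
        intro h
        apply hR2
        right
        exact ⟨x₃, y₃, H3, e3, h⟩
      have q1 : y₁ ^ 2 = x₁ ^ 3 + 6 * x₁ ^ 2 - 3 * x₁ := by
        have := eqn H₁
        linear_combination this
      have q2 : y₂ ^ 2 = x₂ ^ 3 + 6 * x₂ ^ 2 - 3 * x₂ := by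
        have := eqn H₂
        linear_combination this
      by_cases hx1 : x₁ = 1
      · -- translation
        subst hx1
        have e5 : sf h2 h3 hρ P = 0 := sf_one h2 h3 hρ y₁ H₁
        rw [e5, zero_add]
        change sf h2 h3 hρ (Affine.Point.some 1 y₁ H₁ + Affine.Point.some x₂ y₂ H₂) = _
        rw [e3]
        obtain ⟨G1, g1⟩ := sf_some h2 h3 hρ x₃ y₃ H3 hx31
        obtain ⟨G2, g2⟩ := sf_some h2 h3 hρ x₂ y₂ H₂ hx2
        rw [g1, g2]
        have hl' : l * (x₂ - 1) = y₂ - y₁ := by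
          have : l * (1 - x₂) = y₁ - y₂ := div_mul_cancel₀ _ hd
          linear_combination -this
        have h6 := h2' K ρ h2 h3 hρ x₂ y₂ y₁ l x₃ y₃ q2 (by linear_combination q1) hx2 hl'
          (by rw [hx3]; ring) (by
            rw [hy3]
            linear_combination -hl') hx31
        exact some_congr _ _ h6.1 h6.2
      · obtain ⟨G1, g1⟩ := sf_some h2 h3 hρ x₃ y₃ H3 hx31
        obtain ⟨G2, g2⟩ := sf_some h2 h3 hρ x₂ y₂ H₂ hx2
        obtain ⟨G3, g3⟩ := sf_some h2 h3 hρ x₁ y₁ H₁ hx1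
        change sf h2 h3 hρ (Affine.Point.some x₁ y₁ H₁ + Affine.Point.some x₂ y₂ H₂) =
          sf h2 h3 hρ (Affine.Point.some x₁ y₁ H₁) + _
        rw [e3, g1, g2, g3]
        have hd' : sx x₁ - sx x₂ ≠ 0 := sub_ne_zero.2 hsx
        obtain ⟨H4, e4⟩ := add_mk G3 G2 hsx ((sy ρ x₁ y₁ - sy ρ x₂ y₂) / (sx x₁ - sx x₂)) _ _
          (div_mul_cancel₀ _ hd') rfl rfl
        rw [e4]
        have h6 := h1' K ρ h2 h3 hρ x₁ y₁ x₂ y₂ l x₃ y₃
          ((sy ρ x₁ y₁ - sy ρ x₂ y₂) / (sx x₁ - sx x₂)) q1 q2 hx12 (div_mul_cancel₀ _ hd) rfl rfl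
          hx1 hx2 hx31 hsx (div_mul_cancel₀ _ hd')
        refine some_congr _ _ h6.1 ?_
        rw [h6.2, h6.1]

end

theorem s3 (h1 : S_S1) (h2 : S_S2) : S_S3 := by
  intro K _ _ _ ρ h2' h3' hρ
  have hinf : Infinite (Pt (6 : K) (-3)) := by
    have hsq : ∀ x : K, ∃ y : K, y ^ 2 = x ^ 3 + 6 * x ^ 2 + -3 * x := by
      intro x
      obtain ⟨z, hz⟩ := IsAlgClosed.exists_eq_mul_self (x ^ 3 + 6 * x ^ 2 + -3 * x)
      exact ⟨z, by rw [hz]; ring⟩
    choose f hf using hsq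
    refine Infinite.of_injective (fun x : K => (Affine.Point.some x (f x)
      (nons h2' (neg_ne_zero.2 h3') (four8 h2' h3') (hf x)) : Pt (6 : K) (-3))) ?_
    intro x x' h
    simp only [Affine.Point.some.injEq] at h
    exact h.1
  refine ⟨AddMonoidHom.mk' (sf h2' h3' hρ)
    (glue _ (local_add h1 h2 h2' h3' hρ)), sf_zero h2' h3' hρ, ?_, ?_⟩
  · intro y h
    exact sf_one h2' h3' hρ y h
  · intro x y h hx
    exact sf_some h2' h3' hρ x y h hx

end Pool.Agent.W366.LL
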